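import Mathlib

/-!
# All-symbol PIR and batch codes
-/

namespace Q220.AllSymbol

/-- `R` is a recovery set for `v`: `v` lies in the span of the columns `g_j`, `j ∈ R`. -/
def Recovers {K : Type} [Field K] {k n : ℕ} (G : Matrix (Fin k) (Fin n) K) (R : Finset (Fin n))
    (v : Fin k → K) : Prop :=
  v ∈ Submodule.span K ((fun j => G.col j) '' (R : Set (Fin n)))

/-- `G` serves the vectors `v_1, ..., v_t`: there are pairwise disjoint recovery sets. -/
def Serves {K : Type} [Field K] {k n t : ℕ} (G : Matrix (Fin k) (Fin n) K)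
    (v : Fin t → Fin k → K) : Prop :=
  ∃ R : Fin t → Finset (Fin n), (∀ a b, a ≠ b → Disjoint (R a) (R b)) ∧
    ∀ a, Recovers G (R a) (v a)

/-- The `t`-all-symbol PIR property. -/
def AllSymbolPIR {K : Type} [Field K] {k n : ℕ} (t : ℕ) (G : Matrix (Fin k) (Fin n) K) : Prop :=
  ∀ j, Serves G (fun _ : Fin t => G.col j)

/-- The `t`-all-symbol batch property. -/
def AllSymbolBatch {K : Type} [Field K] {k n : ℕ} (t : ℕ) (G : Matrix (Fin k) (Fin n) K) : Prop :=
  ∀ s : Fin t → Fin n, Serves G (fun a => G.col (s a))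

/-- `ASP(k, t, q)` for a field `K` with `q` elements: the least length `n` of a `k`-dimensional
code (given by a generator matrix with independent rows) with the `t`-all-symbol PIR property. -/
noncomputable def ASP (K : Type) [Field K] (k t : ℕ) : ℕ :=
  sInf {n | ∃ G : Matrix (Fin k) (Fin n) K, LinearIndependent K G.row ∧ AllSymbolPIR t G}

/-- `ASB(k, t, q)`: the same for the `t`-all-symbol batch property. -/
noncomputable def ASB (K : Type) [Field K] (k t : ℕ) : ℕ :=
  sInf {n | ∃ G : Matrix (Fin k) (Fin n) K, LinearIndependent K G.row ∧ AllSymbolBatch t G}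

theorem AllSymbolBatch.pir {K : Type} [Field K] {k n t : ℕ} {G : Matrix (Fin k) (Fin n) K}
    (h : AllSymbolBatch t G) : AllSymbolPIR t G := fun j => h (fun _ => j)

end Q220.AllSymbol
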