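import Pool.Agent.Q220.AllSymbol.Search

namespace Q220.AllSymbol

open Finset

theorem exists_functional : ∀ p i, ∃ q : Fin 13, ∀ c, (P q ⬝ᵥ P c = 0 ↔
    c = p ∨ c = LP p i 0 ∨ c = LP p i 1 ∨ c = LP p i 2) := by
  decide +kernel

theorem LP_distinct : ∀ p i, p ≠ LP p i 0 ∧ p ≠ LP p i 1 ∧ p ≠ LP p i 2 ∧
    LP p i 0 ≠ LP p i 1 ∧ LP p i 0 ≠ LP p i 2 ∧ LP p i 1 ≠ LP p i 2 := by
  decide +kernel

variable {n : ℕ} (G : Matrix (Fin 3) (Fin n) (ZMod 3))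

theorem line_sum (hG : LinearIndependent (ZMod 3) G.row) (hP : AllSymbolPIR 7 G)
    (p : Fin 13) (i : Fin 4) :
    mult G p + mult G (LP p i 0) + mult G (LP p i 1) + mult G (LP p i 2) + 7 ≤
      ∑ c, mult G c := by
  obtain ⟨q, hq⟩ := exists_functional p i
  have h1 := off_line G hG hP (P q) (P_ne_zero q)
  have h2 := Finset.sum_filter_add_sum_filter_not (univ : Finset (Fin 13))
    (fun c => P q ⬝ᵥ P c ≠ 0) (mult G)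
  have h3 : univ.filter (fun c => ¬ (P q ⬝ᵥ P c ≠ 0)) =
      {p, LP p i 0, LP p i 1, LP p i 2} := by
    ext c
    simp only [Finset.mem_filter, Finset.mem_univ, true_and, not_not, Finset.mem_insert,
      Finset.mem_singleton]
    exact hq c
  obtain ⟨d1, d2, d3, d4, d5, d6⟩ := LP_distinct p i
  rw [h3, Finset.sum_insert (by simp [d1, d2, d3]), Finset.sum_insert (by simp [d4, d5]),
    Finset.sum_insert (by simp [d6]), Finset.sum_singleton] at h2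
  omega

theorem cnd_of {a x N : ℕ} (ha : a ≤ 3) (h1 : a = 1 → N = 13)
    (h2 : a = 2 → 4 ≤ x ∧ (N = 13 ∨ 5 ≤ x)) (h3 : a = 3 → 2 ≤ x) : cnd a x N = true := by
  unfold cnd
  interval_cases a
  · rfl
  · rw [h1 rfl]; rfl
  · obtain ⟨h4, h5⟩ := h2 rfl
    rw [Nat.ble_eq.mpr h4]
    rcases h5 with h5 | h5
    · rw [h5]; rfl
    · rw [Nat.ble_eq.mpr h5, Bool.or_true]; rfl
  · rw [Nat.ble_eq.mpr (h3 rfl)]; rfl

/-- There is no code of dimension three and length at most 13 over the field with three elements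
which has the 7-all-symbol PIR property. -/
theorem no_short_code (hn : n ≤ 13) (hG : LinearIndependent (ZMod 3) G.row)
    (hP : AllSymbolPIR 7 G) : False := by
  have hN : ∑ c, mult G c ≤ 13 := (sum_mult_le G).trans hn
  have hsum : ∀ p, mult G p + ∑ i, ∑ k, mult G (LP p i k) = ∑ c, mult G c := sum_LP (mult G)
  obtain ⟨m, hm⟩ : ∃ m, m = mult G := ⟨_, rfl⟩
  have hls : ∀ p i, m p + m (LP p i 0) + m (LP p i 1) + m (LP p i 2) + 7 ≤ ∑ c, m c := by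
    rw [hm]; exact line_sum G hG hP
  have hstr : ∀ p, 0 < m p → ∃ (s y : ℕ) (x : Fin 4 → ℕ), s ≤ m p ∧ s + ∑ i, x i + y = 7 ∧
      2 * ∑ i, x i + 3 * y ≤ ∑ i, ∑ k, m (LP p i k) ∧
      (∀ i, 2 * x i ≤ ∑ k, m (LP p i k)) ∧
      (∀ i k, x i ≤ ∑ k' ∈ univ.erase k, m (LP p i k')) := by
    rw [hm]; exact structure_at G hP
  rw [← hm] at hN hsum
  clear hm hP hG
  have hN7 : 7 ≤ ∑ c, m c := by have := hls 0 0; omega
  simp only [Fin.sum_univ_four, Fin.sum_univ_three] at hsum hstr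
  have h3 : ∀ p, m p ≤ 3 := by
    intro p
    have h0 := hls p 0
    have h1 := hls p 1
    have h2 := hls p 2
    have h3 := hls p 3
    have h4 := hsum p
    omega
  -- explicit form of the structure
  have hst : ∀ p, 0 < m p → ∃ s y x0 x1 x2 x3 : ℕ, s ≤ m p ∧ s + (x0 + x1 + x2 + x3) + y = 7 ∧
      2 * (x0 + x1 + x2 + x3) + 3 * y + m p ≤ ∑ c, m c ∧
      (2 * x0 ≤ m (LP p 0 0) + m (LP p 0 1) + m (LP p 0 2) ∧
        x0 ≤ m (LP p 0 1) + m (LP p 0 2) ∧ x0 ≤ m (LP p 0 0) + m (LP p 0 2) ∧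
        x0 ≤ m (LP p 0 0) + m (LP p 0 1)) ∧
      (2 * x1 ≤ m (LP p 1 0) + m (LP p 1 1) + m (LP p 1 2) ∧
        x1 ≤ m (LP p 1 1) + m (LP p 1 2) ∧ x1 ≤ m (LP p 1 0) + m (LP p 1 2) ∧
        x1 ≤ m (LP p 1 0) + m (LP p 1 1)) ∧
      (2 * x2 ≤ m (LP p 2 0) + m (LP p 2 1) + m (LP p 2 2) ∧
        x2 ≤ m (LP p 2 1) + m (LP p 2 2) ∧ x2 ≤ m (LP p 2 0) + m (LP p 2 2) ∧
        x2 ≤ m (LP p 2 0) + m (LP p 2 1)) ∧
      (2 * x3 ≤ m (LP p 3 0) + m (LP p 3 1) + m (LP p 3 2) ∧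
        x3 ≤ m (LP p 3 1) + m (LP p 3 2) ∧ x3 ≤ m (LP p 3 0) + m (LP p 3 2) ∧
        x3 ≤ m (LP p 3 0) + m (LP p 3 1)) := by
    intro p hp
    obtain ⟨s, y, x, hs, hsx, hxy, hx2, hx3⟩ := hstr p hp
    have hE : ∀ i, (x i ≤ m (LP p i 1) + m (LP p i 2)) ∧ (x i ≤ m (LP p i 0) + m (LP p i 2)) ∧
        (x i ≤ m (LP p i 0) + m (LP p i 1)) := by
      intro i
      have a0 := hx3 i 0
      have a1 := hx3 i 1
      have a2 := hx3 i 2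
      have b0 := Finset.add_sum_erase univ (fun k => m (LP p i k)) (mem_univ (0 : Fin 3))
      have b1 := Finset.add_sum_erase univ (fun k => m (LP p i k)) (mem_univ (1 : Fin 3))
      have b2 := Finset.add_sum_erase univ (fun k => m (LP p i k)) (mem_univ (2 : Fin 3))
      simp only [Fin.sum_univ_three] at b0 b1 b2
      refine ⟨?_, ?_, ?_⟩ <;> omega
    have hp' := hsum p
    exact ⟨s, y, x 0, x 1, x 2, x 3, hs, hsx, by omega, ⟨hx2 0, hE 0⟩, ⟨hx2 1, hE 1⟩,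
      ⟨hx2 2, hE 2⟩, ⟨hx2 3, hE 3⟩⟩
  clear hstr
  -- points of multiplicity one
  have h1 : ∀ p i, m p = 1 →
      (m (LP p i 0) + m (LP p i 1) + m (LP p i 2)) % 2 = 0 ∧
      2 * m (LP p i 0) ≤ m (LP p i 0) + m (LP p i 1) + m (LP p i 2) ∧
      2 * m (LP p i 1) ≤ m (LP p i 0) + m (LP p i 1) + m (LP p i 2) ∧
      2 * m (LP p i 2) ≤ m (LP p i 0) + m (LP p i 1) + m (LP p i 2) := by
    intro p i hp
    obtain ⟨s, y, x0, x1, x2, x3, hs, hsx, hxy, ⟨a0, b0, c0, d0⟩, ⟨a1, b1, c1, d1⟩,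
      ⟨a2, b2, c2, d2⟩, ⟨a3, b3, c3, d3⟩⟩ := hst p (by omega)
    have hp' := hsum p
    have e0 : 2 * x0 = m (LP p 0 0) + m (LP p 0 1) + m (LP p 0 2) := by omega
    have e1 : 2 * x1 = m (LP p 1 0) + m (LP p 1 1) + m (LP p 1 2) := by omega
    have e2 : 2 * x2 = m (LP p 2 0) + m (LP p 2 1) + m (LP p 2 2) := by omega
    have e3 : 2 * x3 = m (LP p 3 0) + m (LP p 3 1) + m (LP p 3 2) := by omega
    clear hs hsx hxy hp' hst hsum hls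
    fin_cases i
    · change _ ∧ 2 * m (LP p 0 0) ≤ _ ∧ 2 * m (LP p 0 1) ≤ _ ∧ 2 * m (LP p 0 2) ≤ _
      refine ⟨?_, ?_, ?_, ?_⟩ <;> (simp only [Fin.zero_eta, Fin.mk_one, Fin.reduceFinMk]; omega)
    · refine ⟨?_, ?_, ?_, ?_⟩ <;> (simp only [Fin.zero_eta, Fin.mk_one, Fin.reduceFinMk]; omega)
    · refine ⟨?_, ?_, ?_, ?_⟩ <;> (simp only [Fin.zero_eta, Fin.mk_one, Fin.reduceFinMk]; omega)
    · refine ⟨?_, ?_, ?_, ?_⟩ <;> (simp only [Fin.zero_eta, Fin.mk_one, Fin.reduceFinMk]; omega)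
  have hc : ∀ p, cnd (m p)
      (pr (m (LP p 0 0)) (m (LP p 0 1)) (m (LP p 0 2)) +
        pr (m (LP p 1 0)) (m (LP p 1 1)) (m (LP p 1 2)) +
        pr (m (LP p 2 0)) (m (LP p 2 1)) (m (LP p 2 2)) +
        pr (m (LP p 3 0)) (m (LP p 3 1)) (m (LP p 3 2))) (∑ c, m c) = true := by
    intro p
    by_cases hp0 : m p = 0
    · rw [hp0]; rfl
    obtain ⟨s, y, x0, x1, x2, x3, hs, hsx, hxy, ⟨a0, b0, c0, d0⟩, ⟨a1, b1, c1, d1⟩,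
      ⟨a2, b2, c2, d2⟩, ⟨a3, b3, c3, d3⟩⟩ := hst p (by omega)
    have f0 := pr_ge x0 _ _ _ (h3 (LP p 0 0)) (h3 (LP p 0 1)) (h3 (LP p 0 2)) a0 b0 c0 d0
    have f1 := pr_ge x1 _ _ _ (h3 (LP p 1 0)) (h3 (LP p 1 1)) (h3 (LP p 1 2)) a1 b1 c1 d1
    have f2 := pr_ge x2 _ _ _ (h3 (LP p 2 0)) (h3 (LP p 2 1)) (h3 (LP p 2 2)) a2 b2 c2 d2
    have f3 := pr_ge x3 _ _ _ (h3 (LP p 3 0)) (h3 (LP p 3 1)) (h3 (LP p 3 2)) a3 b3 c3 d3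
    have hp3 := h3 p
    clear hst hls a0 b0 c0 d0 a1 b1 c1 d1 a2 b2 c2 d2 a3 b3 c3 d3
    refine cnd_of hp3 (fun h => ?_) (fun h => ⟨?_, ?_⟩) (fun h => ?_) <;> omega
  have hl : ∀ p i, m p + m (LP p i 0) + m (LP p i 1) + m (LP p i 2) ≤ 6 := by
    intro p i; have := hls p i; omega
  have hs : ∑ p, m p = m 0 + m 1 + m 2 + m 3 + m 4 + m 5 + m 6 + m 7 + m 8 + m 9 + m 10 + m 11 + m 12 := by
    simp only [Fin.sum_univ_succ, Fin.sum_univ_zero]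
    change m 0 + (m 1 + (m 2 + (m 3 + (m 4 + (m 5 + (m 6 + (m 7 + (m 8 + (m 9 + (m 10 + (m 11 +
      (m 12 + 0)))))))))))) = _
    omega
  rw [hs] at hN hN7 hc
  exact search m h3 hN (by omega)
    ⟨hl 0 0, h1 0 0, h1 1 0, h1 2 0, h1 3 0⟩
    ⟨hl 0 1, h1 0 1, h1 4 0, h1 5 0, h1 6 0⟩
    ⟨hl 0 2, h1 0 2, h1 7 0, h1 8 0, h1 9 0⟩
    ⟨hl 0 3, h1 0 3, h1 10 0, h1 11 0, h1 12 0⟩
    ⟨hl 1 1, h1 1 1, h1 4 1, h1 7 1, h1 10 1⟩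
    ⟨hl 1 2, h1 1 2, h1 5 1, h1 8 1, h1 11 1⟩
    ⟨hl 1 3, h1 1 3, h1 6 1, h1 9 1, h1 12 1⟩
    ⟨hl 2 1, h1 2 1, h1 4 2, h1 8 2, h1 12 2⟩
    ⟨hl 2 2, h1 2 2, h1 5 2, h1 9 2, h1 10 2⟩
    ⟨hl 2 3, h1 2 3, h1 6 2, h1 7 2, h1 11 2⟩
    ⟨hl 3 1, h1 3 1, h1 4 3, h1 9 3, h1 11 3⟩
    ⟨hl 3 2, h1 3 2, h1 5 3, h1 7 3, h1 12 3⟩
    ⟨hl 3 3, h1 3 3, h1 6 3, h1 8 3, h1 10 3⟩
    (hc 0) (hc 1) (hc 2) (hc 3) (hc 4) (hc 5) (hc 6) (hc 7) (hc 8) (hc 9) (hc 10) (hc 11) (hc 12)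

end Q220.AllSymbol
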