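import Pool.Agent.Q220.AllSymbol.Defs

namespace Q220.AllSymbol

open Finset

/-- the points of the plane of order 3 -/
def P : Fin 13 → Fin 3 → ZMod 3 :=
  ![![0, 0, 1], ![0, 1, 0], ![0, 1, 1], ![0, 1, 2], ![1, 0, 0], ![1, 0, 1], ![1, 0, 2], ![1, 1, 0],
    ![1, 1, 1], ![1, 1, 2], ![1, 2, 0], ![1, 2, 1], ![1, 2, 2]]

theorem classify : ∀ a b c : ZMod 3, ![a, b, c] ≠ 0 → ∃ p, ![a, b, c] = P p ∨ ![a, b, c] = -P p := by
  decide +kernel

theorem classify' (v : Fin 3 → ZMod 3) (hv : v ≠ 0) : ∃ p, v = P p ∨ v = -P p := by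
  have h : v = ![v 0, v 1, v 2] := by
    funext i; fin_cases i <;> rfl
  rw [h] at hv ⊢
  exact classify _ _ _ hv

theorem P_inj : ∀ p q : Fin 13, p ≠ q → P p ≠ P q ∧ P p ≠ -P q ∧ - P p ≠ P q := by
  decide +kernel

theorem P_ne_zero : ∀ p : Fin 13, P p ≠ 0 := by decide +kernel

variable {n : ℕ} (G : Matrix (Fin 3) (Fin n) (ZMod 3))

/-- the columns which are multiples of `P p` -/
def cl (p : Fin 13) : Finset (Fin n) :=
  univ.filter (fun j => G.col j = P p ∨ G.col j = -P p)

/-- multiplicities -/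
def mult (p : Fin 13) : ℕ := (cl G p).card

theorem mem_cl {p : Fin 13} {j : Fin n} : j ∈ cl G p ↔ (G.col j = P p ∨ G.col j = -P p) := by
  simp [cl]

theorem cl_disjoint {p q : Fin 13} (h : p ≠ q) : Disjoint (cl G p) (cl G q) := by
  rw [Finset.disjoint_left]
  intro j hp hq
  rw [mem_cl] at hp hq
  obtain ⟨h1, h2, h3⟩ := P_inj p q h
  rcases hp with hp | hp <;> rcases hq with hq | hq
  · exact h1 (hp.symm.trans hq)
  · exact h2 (hp.symm.trans hq)
  · exact h3 (hp.symm.trans hq)
  · exact h1 (neg_injective (hp.symm.trans hq))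

theorem sum_mult_le : ∑ p, mult G p ≤ n := by
  unfold mult
  rw [← Finset.card_biUnion]
  · refine (Finset.card_le_univ _).trans ?_
    simp
  · intro p _ q _ h
    exact cl_disjoint G h

/-- disjointness of the pieces -/
theorem sum_inter_le {t : ℕ} (R : Fin t → Finset (Fin n))
    (hR : ∀ a b, a ≠ b → Disjoint (R a) (R b)) (B : Finset (Fin n)) (T : Finset (Fin t)) :
    ∑ a ∈ T, (R a ∩ B).card ≤ B.card := by
  rw [← Finset.card_biUnion]
  · apply Finset.card_le_card
    intro j hj
    rw [Finset.mem_biUnion] at hj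
    obtain ⟨a, _, hj⟩ := hj
    exact (Finset.mem_inter.mp hj).2
  · intro a _ b _ h
    exact (hR a b h).mono inter_subset_left inter_subset_left

/-- few columns on a line -/
theorem off_line (hG : LinearIndependent (ZMod 3) G.row) (hP : AllSymbolPIR 7 G)
    (f : Fin 3 → ZMod 3) (hf : f ≠ 0) :
    7 ≤ ∑ p ∈ univ.filter (fun p => f ⬝ᵥ P p ≠ 0), mult G p := by
  -- a column off the line
  obtain ⟨j₀, hj₀⟩ : ∃ j, f ⬝ᵥ G.col j ≠ 0 := by
    by_contra hcon
    push Not at hcon
    apply hf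
    have h1 : ∑ i, f i • G.row i = 0 := by
      funext j
      have := hcon j
      simpa [dotProduct, Matrix.col, Matrix.row] using this
    funext i
    exact Fintype.linearIndependent_iff.mp hG f h1 i
  obtain ⟨R, hR, hrec⟩ := hP j₀
  have hex : ∀ a, ∃ j ∈ R a, f ⬝ᵥ G.col j ≠ 0 := by
    intro a
    by_contra hcon
    push Not at hcon
    apply hj₀
    let φ : (Fin 3 → ZMod 3) →ₗ[ZMod 3] ZMod 3 := dotProductBilin (ZMod 3) (ZMod 3) f
    have h1 : G.col j₀ ∈ LinearMap.ker φ := by
      have h2 : Submodule.span (ZMod 3) ((fun j => G.col j) '' (R a : Set (Fin n))) ≤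
          LinearMap.ker φ := by
        rw [Submodule.span_le]
        rintro _ ⟨j, hj, rfl⟩
        exact hcon j hj
      exact h2 (hrec a)
    exact h1
  choose g hg1 hg2 using hex
  have hinj : Function.Injective g := by
    intro a b hab
    by_contra hne
    exact Finset.disjoint_left.mp (hR a b hne) (hg1 a) (hab ▸ hg1 b)
  have hsub : univ.image g ⊆ (univ.filter (fun p => f ⬝ᵥ P p ≠ 0)).biUnion (cl G) := by
    intro j hj
    rw [Finset.mem_image] at hj
    obtain ⟨a, _, rfl⟩ := hj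
    have hne : G.col (g a) ≠ 0 := by
      intro h0
      apply hg2 a
      rw [h0, dotProduct_zero]
    obtain ⟨p, hp⟩ := classify' _ hne
    rw [Finset.mem_biUnion]
    refine ⟨p, ?_, (mem_cl G).mpr hp⟩
    rw [Finset.mem_filter]
    refine ⟨mem_univ _, ?_⟩
    intro h0
    apply hg2 a
    rcases hp with hp | hp
    · rw [hp, h0]
    · rw [hp, dotProduct_neg, h0, neg_zero]
  calc 7 = (univ.image g).card := by
        rw [Finset.card_image_of_injective _ hinj]; simp
    _ ≤ ((univ.filter (fun p => f ⬝ᵥ P p ≠ 0)).biUnion (cl G)).card := Finset.card_le_card hsub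
    _ ≤ ∑ p ∈ univ.filter (fun p => f ⬝ᵥ P p ≠ 0), mult G p := Finset.card_biUnion_le

/-- the three further points on each of the four lines through a point -/
def LP : Fin 13 → Fin 4 → Fin 3 → Fin 13 :=
  ![![![1, 2, 3], ![4, 5, 6], ![7, 8, 9], ![10, 11, 12]],
    ![![0, 2, 3], ![4, 7, 10], ![5, 8, 11], ![6, 9, 12]],
    ![![0, 1, 3], ![4, 8, 12], ![5, 9, 10], ![6, 7, 11]],
    ![![0, 1, 2], ![4, 9, 11], ![5, 7, 12], ![6, 8, 10]],
    ![![0, 5, 6], ![1, 7, 10], ![2, 8, 12], ![3, 9, 11]],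
    ![![0, 4, 6], ![1, 8, 11], ![2, 9, 10], ![3, 7, 12]],
    ![![0, 4, 5], ![1, 9, 12], ![2, 7, 11], ![3, 8, 10]],
    ![![0, 8, 9], ![1, 4, 10], ![2, 6, 11], ![3, 5, 12]],
    ![![0, 7, 9], ![1, 5, 11], ![2, 4, 12], ![3, 6, 10]],
    ![![0, 7, 8], ![1, 6, 12], ![2, 5, 10], ![3, 4, 11]],
    ![![0, 11, 12], ![1, 4, 7], ![2, 5, 9], ![3, 6, 8]],
    ![![0, 10, 12], ![1, 5, 8], ![2, 6, 7], ![3, 4, 9]],
    ![![0, 10, 11], ![1, 6, 9], ![2, 4, 8], ![3, 5, 7]]]

theorem LP_ne : ∀ p i k, LP p i k ≠ p := by decide +kernel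

theorem LP_inj : ∀ p i k₁ k₂, LP p i k₁ = LP p i k₂ → k₁ = k₂ := by decide +kernel

theorem LP_pair : ∀ p c₁ c₂ : Fin 13, c₁ ≠ c₂ → c₁ ≠ p → c₂ ≠ p →
    (∃ a b : ZMod 3, P p = a • P c₁ + b • P c₂) →
    ∃ i, ∃ k₁ k₂, k₁ ≠ k₂ ∧ c₁ = LP p i k₁ ∧ c₂ = LP p i k₂ := by
  decide +kernel

theorem P_smul : ∀ p c : Fin 13, c ≠ p → ∀ a : ZMod 3, P p ≠ a • P c := by
  decide +kernel

theorem sum_LP (m : Fin 13 → ℕ) : ∀ p, m p + ∑ i, ∑ k, m (LP p i k) = ∑ q, m q := by
  intro p
  fin_cases p <;> simp [Fin.sum_univ_succ, LP] <;> ring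

theorem sum_ne (m : Fin 13 → ℕ) (p : Fin 13) :
    ∑ c ∈ univ.erase p, m c = ∑ i, ∑ k, m (LP p i k) := by
  have h1 := sum_LP m p
  have h2 := Finset.add_sum_erase univ m (mem_univ p)
  omega

/-- the structure of seven disjoint recovery sets of a column -/
theorem structure_at (hP : AllSymbolPIR 7 G) (p : Fin 13) (hp : 0 < mult G p) :
    ∃ (s y : ℕ) (x : Fin 4 → ℕ), s ≤ mult G p ∧ s + ∑ i, x i + y = 7 ∧
      2 * ∑ i, x i + 3 * y ≤ ∑ i, ∑ k, mult G (LP p i k) ∧
      (∀ i, 2 * x i ≤ ∑ k, mult G (LP p i k)) ∧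
      (∀ i k, x i ≤ ∑ k' ∈ univ.erase k, mult G (LP p i k')) := by
  classical
  obtain ⟨j₀, hj₀⟩ := Finset.card_pos.mp hp
  obtain ⟨R, hR, hrec⟩ := hP j₀
  rw [mem_cl] at hj₀
  -- the number of columns of class `c` in `R a`
  let B : Fin 7 → Fin 13 → ℕ := fun a c => (R a ∩ cl G c).card
  have hB : ∀ (T : Finset (Fin 7)) c, ∑ a ∈ T, B a c ≤ mult G c := fun T c =>
    sum_inter_le R hR (cl G c) T
  -- the span condition
  have hspan : ∀ a, P p ∈ Submodule.span (ZMod 3) (P '' {c | 0 < B a c}) := by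
    intro a
    have h1 : Submodule.span (ZMod 3) ((fun j => G.col j) '' (R a : Set (Fin n))) ≤
        Submodule.span (ZMod 3) (P '' {c | 0 < B a c}) := by
      rw [Submodule.span_le]
      rintro _ ⟨j, hj, rfl⟩
      by_cases h0 : G.col j = 0
      · change G.col j ∈ _
        rw [h0]; exact Submodule.zero_mem _
      · obtain ⟨c, hc⟩ := classify' _ h0
        have hmem : P c ∈ Submodule.span (ZMod 3) (P '' {c | 0 < B a c}) := by
          apply Submodule.subset_span
          refine ⟨c, ?_, rfl⟩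
          change 0 < (R a ∩ cl G c).card
          rw [Finset.card_pos]
          exact ⟨j, Finset.mem_inter.mpr ⟨hj, (mem_cl G).mpr hc⟩⟩
        change G.col j ∈ _
        rcases hc with hc | hc
        · rw [hc]; exact hmem
        · rw [hc]; exact Submodule.neg_mem _ hmem
    have h2 := h1 (hrec a)
    rcases hj₀ with h | h
    · rw [h] at h2; exact h2
    · rw [h] at h2
      exact (Submodule.neg_mem_iff _).mp h2
  -- sets without a column of class `p` and with at most two nonzero columns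
  have hX : ∀ a, B a p = 0 → ∑ c, B a c ≤ 2 →
      ∃ i, ∃ k₁ k₂, k₁ ≠ k₂ ∧ 0 < B a (LP p i k₁) ∧ 0 < B a (LP p i k₂) := by
    intro a h0 h2
    set D := univ.filter (fun c => 0 < B a c) with hD
    have hDset : {c | 0 < B a c} = (D : Set (Fin 13)) := by
      ext c; simp [hD]
    have hDcard : D.card ≤ 2 := by
      refine le_trans ?_ h2
      calc D.card = ∑ c ∈ D, 1 := by simp
        _ ≤ ∑ c ∈ D, B a c := Finset.sum_le_sum (fun c hc => (Finset.mem_filter.mp hc).2)
        _ ≤ ∑ c, B a c := Finset.sum_le_sum_of_subset (Finset.subset_univ _)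
    have hpD : p ∉ D := by
      intro h
      have := (Finset.mem_filter.mp h).2
      omega
    have hs := hspan a
    rw [hDset] at hs
    have hcases : D.card = 0 ∨ D.card = 1 ∨ D.card = 2 := by omega
    rcases hcases with hc | hc | hc
    · rw [Finset.card_eq_zero] at hc
      rw [hc] at hs
      simp at hs
      exact absurd hs (P_ne_zero p)
    · rw [Finset.card_eq_one] at hc
      obtain ⟨c, hc⟩ := hc
      rw [hc] at hs hpD
      simp only [Finset.coe_singleton, Set.image_singleton] at hs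
      rw [Submodule.mem_span_singleton] at hs
      obtain ⟨b, hb⟩ := hs
      have hcp : c ≠ p := fun h => hpD (by simp [h])
      exact absurd hb.symm (P_smul p c hcp b)
    · rw [Finset.card_eq_two] at hc
      obtain ⟨c₁, c₂, h12, hc⟩ := hc
      have hc1 : c₁ ∈ D := by rw [hc]; simp
      have hc2 : c₂ ∈ D := by rw [hc]; simp
      rw [hc] at hs
      simp only [Finset.coe_insert, Finset.coe_singleton, Set.image_insert_eq,
        Set.image_singleton] at hs
      rw [Submodule.mem_span_pair] at hs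
      obtain ⟨b₁, b₂, hb⟩ := hs
      obtain ⟨i, k₁, k₂, hk, e1, e2⟩ := LP_pair p c₁ c₂ h12 (fun h => hpD (h ▸ hc1))
        (fun h => hpD (h ▸ hc2)) ⟨b₁, b₂, hb.symm⟩
      refine ⟨i, k₁, k₂, hk, ?_, ?_⟩
      · rw [← e1]; exact (Finset.mem_filter.mp hc1).2
      · rw [← e2]; exact (Finset.mem_filter.mp hc2).2
  -- the line of a set of that type
  let isX : Fin 7 → Prop := fun a => B a p = 0 ∧ ∑ c, B a c ≤ 2
  have hline : ∀ a, ∃ i : Fin 4, isX a →
      ∃ k₁ k₂, k₁ ≠ k₂ ∧ 0 < B a (LP p i k₁) ∧ 0 < B a (LP p i k₂) := by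
    intro a
    by_cases h : isX a
    · obtain ⟨i, hi⟩ := hX a h.1 h.2
      exact ⟨i, fun _ => hi⟩
    · exact ⟨0, fun h' => absurd h' h⟩
  choose li hli using hline
  let S₀ := univ.filter (fun a => ¬ (B a p = 0))
  let X₀ := univ.filter isX
  let Y₀ := univ.filter (fun a => B a p = 0 ∧ ¬ (∑ c, B a c ≤ 2))
  let Xi : Fin 4 → Finset (Fin 7) := fun i => X₀.filter (fun a => li a = i)
  have hXsum : ∑ i, (Xi i).card = X₀.card := by
    symm
    exact Finset.card_eq_sum_card_fiberwise (fun a _ => mem_univ _)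
  have hTotal : S₀.card + X₀.card + Y₀.card = 7 := by
    have h1 : (univ.filter (fun a => B a p = 0)).card + S₀.card = 7 := by
      have := Finset.card_filter_add_card_filter_not (s := (univ : Finset (Fin 7)))
        (fun a => B a p = 0)
      simpa using this
    have h2 : X₀.card + Y₀.card = (univ.filter (fun a => B a p = 0)).card := by
      have h3 := Finset.card_filter_add_card_filter_not
        (s := (univ.filter (fun a => B a p = 0))) (fun a => ∑ c, B a c ≤ 2)
      rw [Finset.filter_filter, Finset.filter_filter] at h3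
      exact h3
    omega
  refine ⟨S₀.card, Y₀.card, fun i => (Xi i).card, ?_, ?_, ?_, ?_, ?_⟩
  · refine le_trans ?_ (hB S₀ p)
    calc S₀.card = ∑ a ∈ S₀, 1 := by simp
      _ ≤ ∑ a ∈ S₀, B a p := Finset.sum_le_sum (fun a ha => by
          have := (Finset.mem_filter.mp ha).2
          omega)
  · rw [hXsum]; exact hTotal
  · rw [hXsum, ← sum_ne]
    have hdisj : Disjoint X₀ Y₀ := by
      rw [Finset.disjoint_left]
      intro a h1 h2
      exact (Finset.mem_filter.mp h2).2.2 (Finset.mem_filter.mp h1).2.2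
    calc 2 * X₀.card + 3 * Y₀.card = ∑ a ∈ X₀, 2 + ∑ a ∈ Y₀, 3 := by simp [mul_comm]
      _ ≤ ∑ a ∈ X₀, ∑ c ∈ univ.erase p, B a c + ∑ a ∈ Y₀, ∑ c ∈ univ.erase p, B a c := by
          apply Nat.add_le_add
          · apply Finset.sum_le_sum
            intro a ha
            have hx : isX a := (Finset.mem_filter.mp ha).2
            obtain ⟨k₁, k₂, hk, h1, h2⟩ := hli a hx
            have hne : LP p (li a) k₁ ≠ LP p (li a) k₂ := by
              intro h
              exact hk (LP_inj p (li a) k₁ k₂ h)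
            calc 2 ≤ B a (LP p (li a) k₁) + B a (LP p (li a) k₂) := by omega
              _ = ∑ c ∈ {LP p (li a) k₁, LP p (li a) k₂}, B a c := by
                  rw [Finset.sum_pair hne]
              _ ≤ ∑ c ∈ univ.erase p, B a c := by
                  apply Finset.sum_le_sum_of_subset
                  intro c hc
                  rw [Finset.mem_insert, Finset.mem_singleton] at hc
                  rw [Finset.mem_erase]
                  rcases hc with rfl | rfl
                  · exact ⟨LP_ne _ _ _, mem_univ _⟩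
                  · exact ⟨LP_ne _ _ _, mem_univ _⟩
          · apply Finset.sum_le_sum
            intro a ha
            have hy := (Finset.mem_filter.mp ha).2
            have := Finset.add_sum_erase univ (B a) (mem_univ p)
            omega
      _ = ∑ a ∈ X₀ ∪ Y₀, ∑ c ∈ univ.erase p, B a c := (Finset.sum_union hdisj).symm
      _ = ∑ c ∈ univ.erase p, ∑ a ∈ X₀ ∪ Y₀, B a c := Finset.sum_comm
      _ ≤ ∑ c ∈ univ.erase p, mult G c := Finset.sum_le_sum (fun c _ => hB _ c)
  · intro i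
    calc 2 * (Xi i).card = ∑ a ∈ Xi i, 2 := by simp [mul_comm]
      _ ≤ ∑ a ∈ Xi i, ∑ k, B a (LP p i k) := by
          apply Finset.sum_le_sum
          intro a ha
          have ha' := Finset.mem_filter.mp ha
          have hx : isX a := (Finset.mem_filter.mp ha'.1).2
          obtain ⟨k₁, k₂, hk, h1, h2⟩ := hli a hx
          rw [ha'.2] at h1 h2
          calc 2 ≤ B a (LP p i k₁) + B a (LP p i k₂) := by omega
            _ = ∑ k ∈ {k₁, k₂}, B a (LP p i k) := by rw [Finset.sum_pair hk]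
            _ ≤ ∑ k, B a (LP p i k) := Finset.sum_le_sum_of_subset (Finset.subset_univ _)
      _ = ∑ k, ∑ a ∈ Xi i, B a (LP p i k) := Finset.sum_comm
      _ ≤ ∑ k, mult G (LP p i k) := Finset.sum_le_sum (fun k _ => hB _ _)
  · intro i k
    calc (Xi i).card = ∑ a ∈ Xi i, 1 := by simp
      _ ≤ ∑ a ∈ Xi i, ∑ k' ∈ univ.erase k, B a (LP p i k') := by
          apply Finset.sum_le_sum
          intro a ha
          have ha' := Finset.mem_filter.mp ha
          have hx : isX a := (Finset.mem_filter.mp ha'.1).2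
          obtain ⟨k₁, k₂, hk, h1, h2⟩ := hli a hx
          rw [ha'.2] at h1 h2
          by_cases hk1 : k₁ = k
          · have hm : k₂ ∈ univ.erase k := Finset.mem_erase.mpr ⟨fun h => hk (hk1.trans h.symm), mem_univ _⟩
            exact h2.trans_le (Finset.single_le_sum (f := fun k' => B a (LP p i k'))
              (fun _ _ => Nat.zero_le _) hm)
          · have hm : k₁ ∈ univ.erase k := Finset.mem_erase.mpr ⟨hk1, mem_univ _⟩
            exact h1.trans_le (Finset.single_le_sum (f := fun k' => B a (LP p i k'))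
              (fun _ _ => Nat.zero_le _) hm)
      _ = ∑ k' ∈ univ.erase k, ∑ a ∈ Xi i, B a (LP p i k') := Finset.sum_comm
      _ ≤ ∑ k' ∈ univ.erase k, mult G (LP p i k') := Finset.sum_le_sum (fun k _ => hB _ _)

end Q220.AllSymbol
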