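import Pool.Agent.Q220.AllSymbol.Lower

namespace Q220.AllSymbol

open Finset

/-- conditions on the multiplicities on a line, as a property -/
def LineOK (a b c d : ℕ) : Prop :=
  a + b + c + d ≤ 6 ∧
  (a = 1 → (b + c + d) % 2 = 0 ∧ 2 * b ≤ b + c + d ∧ 2 * c ≤ b + c + d ∧ 2 * d ≤ b + c + d) ∧
  (b = 1 → (a + c + d) % 2 = 0 ∧ 2 * a ≤ a + c + d ∧ 2 * c ≤ a + c + d ∧ 2 * d ≤ a + c + d) ∧
  (c = 1 → (a + b + d) % 2 = 0 ∧ 2 * a ≤ a + b + d ∧ 2 * b ≤ a + b + d ∧ 2 * d ≤ a + b + d) ∧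
  (d = 1 → (a + b + c) % 2 = 0 ∧ 2 * a ≤ a + b + c ∧ 2 * b ≤ a + b + c ∧ 2 * c ≤ a + b + c)

instance (a b c d : ℕ) : Decidable (LineOK a b c d) := by unfold LineOK; infer_instance

/-- table for `LineOK` -/
def okLine (a b c d : ℕ) : Bool :=
  Nat.beq (Nat.mod (Nat.shiftRight
    1766874024752451029394243766066929514141683005796114813769296921491528991
    (Nat.add (Nat.add a (Nat.mul 4 b)) (Nat.add (Nat.mul 16 c) (Nat.mul 64 d)))) 2) 1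

theorem okLine_of : ∀ a b c d : ℕ, a ≤ 3 → b ≤ 3 → c ≤ 3 → d ≤ 3 → LineOK a b c d →
    okLine a b c d = true := by
  have h : ∀ a b c d : Fin 4, LineOK a b c d → okLine a b c d = true := by decide +kernel
  intro a b c d ha hb hc hd hl
  exact h ⟨a, by omega⟩ ⟨b, by omega⟩ ⟨c, by omega⟩ ⟨d, by omega⟩ hl

/-- the largest number of pairs of different points, among three points with the given
multiplicities (table) -/
def pr (b c d : ℕ) : ℕ :=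
  Nat.mod (Nat.shiftRight
    3573095076444517543264960697338638803595908894121674440704
    (Nat.mul 3 (Nat.add b (Nat.add (Nat.mul 4 c) (Nat.mul 16 d))))) 8

theorem pr_ge : ∀ x b c d : ℕ, b ≤ 3 → c ≤ 3 → d ≤ 3 → 2 * x ≤ b + c + d → x ≤ c + d →
    x ≤ b + d → x ≤ b + c → x ≤ pr b c d := by
  have h : ∀ b c d : Fin 4, ∀ x : Fin 5, 2 * (x : ℕ) ≤ b + c + d → (x : ℕ) ≤ c + d →
      (x : ℕ) ≤ b + d → (x : ℕ) ≤ b + c → (x : ℕ) ≤ pr b c d := by decide +kernel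
  intro x b c d hb hc hd h1 h2 h3 h4
  exact h ⟨b, by omega⟩ ⟨c, by omega⟩ ⟨d, by omega⟩ ⟨x, by omega⟩ h1 h2 h3 h4

/-- the condition at a point of multiplicity `a` with `x` pairs, `N` columns in all -/
def cnd (a x N : ℕ) : Bool :=
  Nat.beq a 0 || (Nat.beq a 1 && Nat.beq N 13) ||
    (Nat.beq a 2 && Nat.ble 4 x && (Nat.beq N 13 || Nat.ble 5 x)) || (Nat.beq a 3 && Nat.ble 2 x)

/-- all values below four -/
def all4 (f : ℕ → Bool) : Bool := f 0 && f 1 && f 2 && f 3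

theorem all4_spec {f : ℕ → Bool} (h : all4 f = true) (x : ℕ) (hx : x ≤ 3) : f x = true := by
  unfold all4 at h
  rw [Bool.and_eq_true, Bool.and_eq_true, Bool.and_eq_true] at h
  obtain ⟨⟨⟨h0, h1⟩, h2⟩, h3⟩ := h
  interval_cases x <;> assumption

theorem imp_spec {a b : Bool} (h : (!a || b) = true) (ha : a = true) : b = true := by
  rw [ha] at h
  simpa using h

/-- the search -/
def searchB : Bool :=
    all4 fun m0 => all4 fun m1 => all4 fun m2 => all4 fun m3 => !okLine m0 m1 m2 m3 || (!Nat.ble (Nat.add (Nat.add (Nat.add m0 m1) m2) m3) 13 || (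
    all4 fun m4 => all4 fun m5 => all4 fun m6 => !okLine m0 m4 m5 m6 || (!Nat.ble (Nat.add (Nat.add (Nat.add (Nat.add (Nat.add (Nat.add m0 m1) m2) m3) m4) m5) m6) 13 || (
    all4 fun m7 => all4 fun m8 => all4 fun m9 => !okLine m0 m7 m8 m9 || (!Nat.ble (Nat.add (Nat.add (Nat.add (Nat.add (Nat.add (Nat.add (Nat.add (Nat.add (Nat.add m0 m1) m2) m3) m4) m5) m6) m7) m8) m9) 13 || (
    all4 fun m10 => !okLine m1 m4 m7 m10 || (!okLine m2 m5 m9 m10 || (!okLine m3 m6 m8 m10 || (!Nat.ble (Nat.add (Nat.add (Nat.add (Nat.add (Nat.add (Nat.add (Nat.add (Nat.add (Nat.add (Nat.add m0 m1) m2) m3) m4) m5) m6) m7) m8) m9) m10) 13 || (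
    all4 fun m11 => !okLine m1 m5 m8 m11 || (!okLine m2 m6 m7 m11 || (!okLine m3 m4 m9 m11 || (!Nat.ble (Nat.add (Nat.add (Nat.add (Nat.add (Nat.add (Nat.add (Nat.add (Nat.add (Nat.add (Nat.add (Nat.add m0 m1) m2) m3) m4) m5) m6) m7) m8) m9) m10) m11) 13 || (
    all4 fun m12 => !okLine m0 m10 m11 m12 || (!okLine m1 m6 m9 m12 || (!okLine m2 m4 m8 m12 || (!okLine m3 m5 m7 m12 || (!Nat.ble (Nat.add (Nat.add (Nat.add (Nat.add (Nat.add (Nat.add (Nat.add (Nat.add (Nat.add (Nat.add (Nat.add (Nat.add m0 m1) m2) m3) m4) m5) m6) m7) m8) m9) m10) m11) m12) 13 || (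
    (fun N => !(Nat.ble 1 N &&
      cnd m0 (Nat.add (Nat.add (Nat.add (pr m1 m2 m3) (pr m4 m5 m6)) (pr m7 m8 m9)) (pr m10 m11 m12)) N &&
      cnd m1 (Nat.add (Nat.add (Nat.add (pr m0 m2 m3) (pr m4 m7 m10)) (pr m5 m8 m11)) (pr m6 m9 m12)) N &&
      cnd m2 (Nat.add (Nat.add (Nat.add (pr m0 m1 m3) (pr m4 m8 m12)) (pr m5 m9 m10)) (pr m6 m7 m11)) N &&
      cnd m3 (Nat.add (Nat.add (Nat.add (pr m0 m1 m2) (pr m4 m9 m11)) (pr m5 m7 m12)) (pr m6 m8 m10)) N &&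
      cnd m4 (Nat.add (Nat.add (Nat.add (pr m0 m5 m6) (pr m1 m7 m10)) (pr m2 m8 m12)) (pr m3 m9 m11)) N &&
      cnd m5 (Nat.add (Nat.add (Nat.add (pr m0 m4 m6) (pr m1 m8 m11)) (pr m2 m9 m10)) (pr m3 m7 m12)) N &&
      cnd m6 (Nat.add (Nat.add (Nat.add (pr m0 m4 m5) (pr m1 m9 m12)) (pr m2 m7 m11)) (pr m3 m8 m10)) N &&
      cnd m7 (Nat.add (Nat.add (Nat.add (pr m0 m8 m9) (pr m1 m4 m10)) (pr m2 m6 m11)) (pr m3 m5 m12)) N &&
      cnd m8 (Nat.add (Nat.add (Nat.add (pr m0 m7 m9) (pr m1 m5 m11)) (pr m2 m4 m12)) (pr m3 m6 m10)) N &&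
      cnd m9 (Nat.add (Nat.add (Nat.add (pr m0 m7 m8) (pr m1 m6 m12)) (pr m2 m5 m10)) (pr m3 m4 m11)) N &&
      cnd m10 (Nat.add (Nat.add (Nat.add (pr m0 m11 m12) (pr m1 m4 m7)) (pr m2 m5 m9)) (pr m3 m6 m8)) N &&
      cnd m11 (Nat.add (Nat.add (Nat.add (pr m0 m10 m12) (pr m1 m5 m8)) (pr m2 m6 m7)) (pr m3 m4 m9)) N &&
      cnd m12 (Nat.add (Nat.add (Nat.add (pr m0 m10 m11) (pr m1 m6 m9)) (pr m2 m4 m8)) (pr m3 m5 m7)) N))
      (Nat.add (Nat.add (Nat.add (Nat.add (Nat.add (Nat.add (Nat.add (Nat.add (Nat.add (Nat.add (Nat.add (Nat.add m0 m1) m2) m3) m4) m5) m6) m7) m8) m9) m10) m11) m12))))))))))))))))))))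

theorem searchB_true : searchB = true := by
  decide +kernel

theorem search (m : Fin 13 → ℕ) (h3 : ∀ p, m p ≤ 3)
    (hN : m 0 + m 1 + m 2 + m 3 + m 4 + m 5 + m 6 + m 7 + m 8 + m 9 + m 10 + m 11 + m 12 ≤ 13)
    (h1 : 1 ≤ m 0 + m 1 + m 2 + m 3 + m 4 + m 5 + m 6 + m 7 + m 8 + m 9 + m 10 + m 11 + m 12)
    (h0_1_2_3 : LineOK (m 0) (m 1) (m 2) (m 3))
    (h0_4_5_6 : LineOK (m 0) (m 4) (m 5) (m 6))
    (h0_7_8_9 : LineOK (m 0) (m 7) (m 8) (m 9))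
    (h0_10_11_12 : LineOK (m 0) (m 10) (m 11) (m 12))
    (h1_4_7_10 : LineOK (m 1) (m 4) (m 7) (m 10))
    (h1_5_8_11 : LineOK (m 1) (m 5) (m 8) (m 11))
    (h1_6_9_12 : LineOK (m 1) (m 6) (m 9) (m 12))
    (h2_4_8_12 : LineOK (m 2) (m 4) (m 8) (m 12))
    (h2_5_9_10 : LineOK (m 2) (m 5) (m 9) (m 10))
    (h2_6_7_11 : LineOK (m 2) (m 6) (m 7) (m 11))
    (h3_4_9_11 : LineOK (m 3) (m 4) (m 9) (m 11))
    (h3_5_7_12 : LineOK (m 3) (m 5) (m 7) (m 12))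
    (h3_6_8_10 : LineOK (m 3) (m 6) (m 8) (m 10))
    (c0 : cnd (m 0) (pr (m 1) (m 2) (m 3) + pr (m 4) (m 5) (m 6) + pr (m 7) (m 8) (m 9) + pr (m 10) (m 11) (m 12))
      (m 0 + m 1 + m 2 + m 3 + m 4 + m 5 + m 6 + m 7 + m 8 + m 9 + m 10 + m 11 + m 12) = true)
    (c1 : cnd (m 1) (pr (m 0) (m 2) (m 3) + pr (m 4) (m 7) (m 10) + pr (m 5) (m 8) (m 11) + pr (m 6) (m 9) (m 12))
      (m 0 + m 1 + m 2 + m 3 + m 4 + m 5 + m 6 + m 7 + m 8 + m 9 + m 10 + m 11 + m 12) = true)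
    (c2 : cnd (m 2) (pr (m 0) (m 1) (m 3) + pr (m 4) (m 8) (m 12) + pr (m 5) (m 9) (m 10) + pr (m 6) (m 7) (m 11))
      (m 0 + m 1 + m 2 + m 3 + m 4 + m 5 + m 6 + m 7 + m 8 + m 9 + m 10 + m 11 + m 12) = true)
    (c3 : cnd (m 3) (pr (m 0) (m 1) (m 2) + pr (m 4) (m 9) (m 11) + pr (m 5) (m 7) (m 12) + pr (m 6) (m 8) (m 10))
      (m 0 + m 1 + m 2 + m 3 + m 4 + m 5 + m 6 + m 7 + m 8 + m 9 + m 10 + m 11 + m 12) = true)
    (c4 : cnd (m 4) (pr (m 0) (m 5) (m 6) + pr (m 1) (m 7) (m 10) + pr (m 2) (m 8) (m 12) + pr (m 3) (m 9) (m 11))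
      (m 0 + m 1 + m 2 + m 3 + m 4 + m 5 + m 6 + m 7 + m 8 + m 9 + m 10 + m 11 + m 12) = true)
    (c5 : cnd (m 5) (pr (m 0) (m 4) (m 6) + pr (m 1) (m 8) (m 11) + pr (m 2) (m 9) (m 10) + pr (m 3) (m 7) (m 12))
      (m 0 + m 1 + m 2 + m 3 + m 4 + m 5 + m 6 + m 7 + m 8 + m 9 + m 10 + m 11 + m 12) = true)
    (c6 : cnd (m 6) (pr (m 0) (m 4) (m 5) + pr (m 1) (m 9) (m 12) + pr (m 2) (m 7) (m 11) + pr (m 3) (m 8) (m 10))
      (m 0 + m 1 + m 2 + m 3 + m 4 + m 5 + m 6 + m 7 + m 8 + m 9 + m 10 + m 11 + m 12) = true)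
    (c7 : cnd (m 7) (pr (m 0) (m 8) (m 9) + pr (m 1) (m 4) (m 10) + pr (m 2) (m 6) (m 11) + pr (m 3) (m 5) (m 12))
      (m 0 + m 1 + m 2 + m 3 + m 4 + m 5 + m 6 + m 7 + m 8 + m 9 + m 10 + m 11 + m 12) = true)
    (c8 : cnd (m 8) (pr (m 0) (m 7) (m 9) + pr (m 1) (m 5) (m 11) + pr (m 2) (m 4) (m 12) + pr (m 3) (m 6) (m 10))
      (m 0 + m 1 + m 2 + m 3 + m 4 + m 5 + m 6 + m 7 + m 8 + m 9 + m 10 + m 11 + m 12) = true)
    (c9 : cnd (m 9) (pr (m 0) (m 7) (m 8) + pr (m 1) (m 6) (m 12) + pr (m 2) (m 5) (m 10) + pr (m 3) (m 4) (m 11))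
      (m 0 + m 1 + m 2 + m 3 + m 4 + m 5 + m 6 + m 7 + m 8 + m 9 + m 10 + m 11 + m 12) = true)
    (c10 : cnd (m 10) (pr (m 0) (m 11) (m 12) + pr (m 1) (m 4) (m 7) + pr (m 2) (m 5) (m 9) + pr (m 3) (m 6) (m 8))
      (m 0 + m 1 + m 2 + m 3 + m 4 + m 5 + m 6 + m 7 + m 8 + m 9 + m 10 + m 11 + m 12) = true)
    (c11 : cnd (m 11) (pr (m 0) (m 10) (m 12) + pr (m 1) (m 5) (m 8) + pr (m 2) (m 6) (m 7) + pr (m 3) (m 4) (m 9))
      (m 0 + m 1 + m 2 + m 3 + m 4 + m 5 + m 6 + m 7 + m 8 + m 9 + m 10 + m 11 + m 12) = true)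
    (c12 : cnd (m 12) (pr (m 0) (m 10) (m 11) + pr (m 1) (m 6) (m 9) + pr (m 2) (m 4) (m 8) + pr (m 3) (m 5) (m 7))
      (m 0 + m 1 + m 2 + m 3 + m 4 + m 5 + m 6 + m 7 + m 8 + m 9 + m 10 + m 11 + m 12) = true)
    : False := by
  have h := searchB_true
  unfold searchB at h
  replace h := all4_spec h (m 0) (h3 _)
  replace h := all4_spec h (m 1) (h3 _)
  replace h := all4_spec h (m 2) (h3 _)
  replace h := all4_spec h (m 3) (h3 _)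
  replace h := imp_spec h (okLine_of _ _ _ _ (h3 _) (h3 _) (h3 _) (h3 _) h0_1_2_3)
  replace h := imp_spec h (Nat.ble_eq.mpr (by simp only [Nat.add_eq]; omega))
  replace h := all4_spec h (m 4) (h3 _)
  replace h := all4_spec h (m 5) (h3 _)
  replace h := all4_spec h (m 6) (h3 _)
  replace h := imp_spec h (okLine_of _ _ _ _ (h3 _) (h3 _) (h3 _) (h3 _) h0_4_5_6)
  replace h := imp_spec h (Nat.ble_eq.mpr (by simp only [Nat.add_eq]; omega))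
  replace h := all4_spec h (m 7) (h3 _)
  replace h := all4_spec h (m 8) (h3 _)
  replace h := all4_spec h (m 9) (h3 _)
  replace h := imp_spec h (okLine_of _ _ _ _ (h3 _) (h3 _) (h3 _) (h3 _) h0_7_8_9)
  replace h := imp_spec h (Nat.ble_eq.mpr (by simp only [Nat.add_eq]; omega))
  replace h := all4_spec h (m 10) (h3 _)
  replace h := imp_spec h (okLine_of _ _ _ _ (h3 _) (h3 _) (h3 _) (h3 _) h1_4_7_10)
  replace h := imp_spec h (okLine_of _ _ _ _ (h3 _) (h3 _) (h3 _) (h3 _) h2_5_9_10)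
  replace h := imp_spec h (okLine_of _ _ _ _ (h3 _) (h3 _) (h3 _) (h3 _) h3_6_8_10)
  replace h := imp_spec h (Nat.ble_eq.mpr (by simp only [Nat.add_eq]; omega))
  replace h := all4_spec h (m 11) (h3 _)
  replace h := imp_spec h (okLine_of _ _ _ _ (h3 _) (h3 _) (h3 _) (h3 _) h1_5_8_11)
  replace h := imp_spec h (okLine_of _ _ _ _ (h3 _) (h3 _) (h3 _) (h3 _) h2_6_7_11)
  replace h := imp_spec h (okLine_of _ _ _ _ (h3 _) (h3 _) (h3 _) (h3 _) h3_4_9_11)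
  replace h := imp_spec h (Nat.ble_eq.mpr (by simp only [Nat.add_eq]; omega))
  replace h := all4_spec h (m 12) (h3 _)
  replace h := imp_spec h (okLine_of _ _ _ _ (h3 _) (h3 _) (h3 _) (h3 _) h0_10_11_12)
  replace h := imp_spec h (okLine_of _ _ _ _ (h3 _) (h3 _) (h3 _) (h3 _) h1_6_9_12)
  replace h := imp_spec h (okLine_of _ _ _ _ (h3 _) (h3 _) (h3 _) (h3 _) h2_4_8_12)
  replace h := imp_spec h (okLine_of _ _ _ _ (h3 _) (h3 _) (h3 _) (h3 _) h3_5_7_12)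
  replace h := imp_spec h (Nat.ble_eq.mpr (by simp only [Nat.add_eq]; omega))
  simp only [Nat.add_eq] at h
  rw [c0, c1, c2, c3, c4, c5, c6, c7, c8, c9, c10, c11, c12, Nat.ble_eq.mpr h1] at h
  simp at h

end Q220.AllSymbol
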