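import Pool.Agent.Q220.AllSymbol.Defs

namespace Q220.AllSymbol

open Finset

/-- a criterion for recovery sets -/
theorem recovers_of {k n : ℕ} {G : Matrix (Fin k) (Fin n) (ZMod 3)} {R : Finset (Fin n)}
    {v : Fin k → ZMod 3} (a : Fin n → ZMod 3) (h1 : ∑ j, a j • G.col j = v)
    (h2 : ∀ j, a j ≠ 0 → j ∈ R) : Recovers G R v := by
  unfold Recovers
  rw [← h1]
  apply Submodule.sum_mem
  intro j _
  by_cases h : a j = 0
  · rw [h, zero_smul]; exact Submodule.zero_mem _
  · exact Submodule.smul_mem _ _ (Submodule.subset_span ⟨j, h2 j h, rfl⟩)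

/-- the nine points of the plane of order three off a conic, as columns -/
def cols9 : Fin 9 → Fin 3 → ZMod 3 :=
  ![![0, 0, 1], ![0, 1, 0], ![0, 1, 1], ![1, 0, 0], ![1, 0, 1], ![1, 1, 0], ![1, 1, 2], ![1, 2, 1], ![1, 2, 2]]

/-- the generator matrix of length nine -/
def G9 : Matrix (Fin 3) (Fin 9) (ZMod 3) := Matrix.of fun i j => cols9 j i

/-- masks of the recovery sets used: the column itself and four pairs -/
def msk : Fin 9 → Fin 5 → ℕ :=
  ![![1, 6, 24, 96, 384],
    ![2, 5, 40, 144, 320],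
    ![4, 3, 264, 80, 160],
    ![8, 17, 34, 260, 192],
    ![16, 9, 130, 68, 288],
    ![32, 65, 10, 132, 272],
    ![64, 33, 258, 20, 136],
    ![128, 257, 18, 36, 72],
    ![256, 129, 66, 12, 48]]

/-- the coefficients -/
def cf : Fin 9 → Fin 5 → Fin 9 → ZMod 3 :=
  ![![![1, 0, 0, 0, 0, 0, 0, 0, 0],
      ![0, 2, 1, 0, 0, 0, 0, 0, 0],
      ![0, 0, 0, 2, 1, 0, 0, 0, 0],
      ![0, 0, 0, 0, 0, 1, 2, 0, 0],
      ![0, 0, 0, 0, 0, 0, 0, 2, 1]],
    ![![0, 1, 0, 0, 0, 0, 0, 0, 0],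
      ![2, 0, 1, 0, 0, 0, 0, 0, 0],
      ![0, 0, 0, 2, 0, 1, 0, 0, 0],
      ![0, 0, 0, 0, 1, 0, 0, 2, 0],
      ![0, 0, 0, 0, 0, 0, 2, 0, 1]],
    ![![0, 0, 1, 0, 0, 0, 0, 0, 0],
      ![1, 1, 0, 0, 0, 0, 0, 0, 0],
      ![0, 0, 0, 1, 0, 0, 0, 0, 2],
      ![0, 0, 0, 0, 2, 0, 1, 0, 0],
      ![0, 0, 0, 0, 0, 2, 0, 1, 0]],
    ![![0, 0, 0, 1, 0, 0, 0, 0, 0],
      ![2, 0, 0, 0, 1, 0, 0, 0, 0],
      ![0, 2, 0, 0, 0, 1, 0, 0, 0],
      ![0, 0, 1, 0, 0, 0, 0, 0, 1],
      ![0, 0, 0, 0, 0, 0, 2, 2, 0]],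
    ![![0, 0, 0, 0, 1, 0, 0, 0, 0],
      ![1, 0, 0, 1, 0, 0, 0, 0, 0],
      ![0, 1, 0, 0, 0, 0, 0, 1, 0],
      ![0, 0, 2, 0, 0, 0, 1, 0, 0],
      ![0, 0, 0, 0, 0, 2, 0, 0, 2]],
    ![![0, 0, 0, 0, 0, 1, 0, 0, 0],
      ![1, 0, 0, 0, 0, 0, 1, 0, 0],
      ![0, 1, 0, 1, 0, 0, 0, 0, 0],
      ![0, 0, 2, 0, 0, 0, 0, 1, 0],
      ![0, 0, 0, 0, 2, 0, 0, 0, 2]],
    ![![0, 0, 0, 0, 0, 0, 1, 0, 0],
      ![2, 0, 0, 0, 0, 1, 0, 0, 0],
      ![0, 2, 0, 0, 0, 0, 0, 0, 1],
      ![0, 0, 1, 0, 1, 0, 0, 0, 0],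
      ![0, 0, 0, 2, 0, 0, 0, 2, 0]],
    ![![0, 0, 0, 0, 0, 0, 0, 1, 0],
      ![2, 0, 0, 0, 0, 0, 0, 0, 1],
      ![0, 2, 0, 0, 1, 0, 0, 0, 0],
      ![0, 0, 1, 0, 0, 1, 0, 0, 0],
      ![0, 0, 0, 2, 0, 0, 2, 0, 0]],
    ![![0, 0, 0, 0, 0, 0, 0, 0, 1],
      ![1, 0, 0, 0, 0, 0, 0, 1, 0],
      ![0, 1, 0, 0, 0, 0, 1, 0, 0],
      ![0, 0, 2, 1, 0, 0, 0, 0, 0],
      ![0, 0, 0, 0, 2, 2, 0, 0, 0]]]

theorem cf_spec : ∀ c o, (∀ i, ∑ j, cf c o j * cols9 j i = cols9 c i) ∧
    ∀ j : Fin 9, cf c o j ≠ 0 → (msk c o).testBit j = true := by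
  decide +kernel

/-- the set of a mask -/
def bits (f : ℕ) : Finset (Fin 9) := univ.filter (fun j => f.testBit j = true)

theorem recovers_msk (c : Fin 9) (o : Fin 5) : Recovers G9 (bits (msk c o)) (G9.col c) := by
  obtain ⟨h1, h2⟩ := cf_spec c o
  refine recovers_of (cf c o) ?_ (fun j hj => ?_)
  · funext i
    rw [Finset.sum_apply]
    exact h1 i
  · rw [bits, Finset.mem_filter]
    exact ⟨mem_univ _, h2 j hj⟩

/-- the search for disjoint recovery sets -/
def go : List (Fin 9) → ℕ → Bool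
  | [], _ => true
  | c :: cs, f =>
    (Nat.beq (Nat.land (msk c 0) f) (msk c 0) && go cs (Nat.xor f (msk c 0))) ||
    (Nat.beq (Nat.land (msk c 1) f) (msk c 1) && go cs (Nat.xor f (msk c 1))) ||
    (Nat.beq (Nat.land (msk c 2) f) (msk c 2) && go cs (Nat.xor f (msk c 2))) ||
    (Nat.beq (Nat.land (msk c 3) f) (msk c 3) && go cs (Nat.xor f (msk c 3))) ||
    (Nat.beq (Nat.land (msk c 4) f) (msk c 4) && go cs (Nat.xor f (msk c 4)))

theorem go_cons {c : Fin 9} {cs : List (Fin 9)} {f : ℕ} (h : go (c :: cs) f = true) :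
    ∃ o, Nat.land (msk c o) f = msk c o ∧ go cs (Nat.xor f (msk c o)) = true := by
  unfold go at h
  simp only [Bool.or_eq_true, Bool.and_eq_true, Nat.beq_eq] at h
  rcases h with (((h | h) | h) | h) | h
  · exact ⟨0, h⟩
  · exact ⟨1, h⟩
  · exact ⟨2, h⟩
  · exact ⟨3, h⟩
  · exact ⟨4, h⟩

theorem go_sound : ∀ (cs : List (Fin 9)) (f : ℕ), go cs f = true →
    ∃ R : ℕ → Finset (Fin 9), (∀ a b, a ≠ b → Disjoint (R a) (R b)) ∧
      (∀ a, R a ⊆ bits f) ∧ ∀ (a : ℕ) (h : a < cs.length), Recovers G9 (R a) (G9.col cs[a]) := by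
  intro cs
  induction cs with
  | nil =>
    intro f _
    exact ⟨fun _ => ∅, fun _ _ _ => Finset.disjoint_empty_left _, fun _ => Finset.empty_subset _,
      fun a h => absurd h (Nat.not_lt_zero a)⟩
  | cons c cs ih =>
    intro f hf
    obtain ⟨o, ho, hgo⟩ := go_cons hf
    obtain ⟨R, hR1, hR2, hR3⟩ := ih _ hgo
    have hand : ∀ j : ℕ, (msk c o).testBit j = true → f.testBit j = true := by
      intro j hj
      have h1 : (Nat.land (msk c o) f).testBit j = ((msk c o).testBit j && f.testBit j) :=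
        Nat.testBit_land _ _ _
      rw [ho, hj] at h1
      simpa using h1.symm
    have hxor : ∀ j : ℕ, (Nat.xor f (msk c o)).testBit j = true →
        f.testBit j = true ∧ (msk c o).testBit j = false := by
      intro j hj
      have h1 : (Nat.xor f (msk c o)).testBit j = (f.testBit j ^^ (msk c o).testBit j) :=
        Nat.testBit_xor _ _ _
      rw [hj] at h1
      cases hm : (msk c o).testBit j
      · rw [hm] at h1
        simp at h1
        exact ⟨h1, rfl⟩
      · rw [hm, hand j hm] at h1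
        simp at h1
    refine ⟨fun a => match a with
      | 0 => bits (msk c o)
      | a + 1 => R a, ?_, ?_, ?_⟩
    · have hd : ∀ b, Disjoint (bits (msk c o)) (R b) := by
        intro b
        rw [Finset.disjoint_left]
        intro j hj1 hj2
        have h1 := (Finset.mem_filter.mp hj1).2
        have h2 := (Finset.mem_filter.mp (hR2 b hj2)).2
        rw [(hxor _ h2).2] at h1
        exact absurd h1 (by simp)
      intro a b hab
      cases a with
      | zero =>
        cases b with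
        | zero => exact absurd rfl hab
        | succ b => exact hd b
      | succ a =>
        cases b with
        | zero => exact (hd a).symm
        | succ b => exact hR1 a b (fun h => hab (by rw [h]))
    · intro a j hj
      rw [bits, Finset.mem_filter]
      refine ⟨mem_univ _, ?_⟩
      cases a with
      | zero => exact hand _ (Finset.mem_filter.mp hj).2
      | succ a => exact (hxor _ (Finset.mem_filter.mp (hR2 a hj)).2).1
    · intro a ha
      cases a with
      | zero => exact recovers_msk c o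
      | succ a => exact hR3 a (by simpa using ha)

theorem go_all : ∀ a b : Fin 9, a ≤ b → ∀ c : Fin 9, b ≤ c → ∀ d : Fin 9, c ≤ d →
    ∀ e : Fin 9, d ≤ e → go [a, b, c, d, e] 511 = true := by
  decide +kernel

theorem serves_perm {k n t : ℕ} {G : Matrix (Fin k) (Fin n) (ZMod 3)} {s : Fin t → Fin n}
    (σ : Equiv.Perm (Fin t)) (h : Serves G (fun a => G.col (s (σ a)))) :
    Serves G (fun a => G.col (s a)) := by
  obtain ⟨R, h1, h2⟩ := h
  refine ⟨fun a => R (σ.symm a), fun a b hab => h1 _ _ (fun h => hab (σ.symm.injective h)), ?_⟩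
  intro a
  have := h2 (σ.symm a)
  simpa using this

theorem batch_G9 : AllSymbolBatch 5 G9 := by
  intro s
  apply serves_perm (Tuple.sort s)
  have hmono := Tuple.monotone_sort s
  set u : Fin 5 → Fin 9 := s ∘ Tuple.sort s with hu
  have hg := go_all (u 0) (u 1) (hmono (by decide)) (u 2) (hmono (by decide)) (u 3)
    (hmono (by decide)) (u 4) (hmono (by decide))
  obtain ⟨R, h1, _, h3⟩ := go_sound _ _ hg
  refine ⟨fun a => R a, fun a b hab => h1 _ _ (fun h => hab (Fin.ext h)), ?_⟩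
  intro a
  have := h3 a (by simp)
  fin_cases a <;> exact this

theorem indep_of {n : ℕ} {G : Matrix (Fin 3) (Fin n) (ZMod 3)} (j₀ j₁ j₂ : Fin n)
    (h0 : ∀ i, G i j₀ = if i = 0 then 1 else 0) (h1 : ∀ i, G i j₁ = if i = 1 then 1 else 0)
    (h2 : ∀ i, G i j₂ = if i = 2 then 1 else 0) : LinearIndependent (ZMod 3) G.row := by
  rw [Fintype.linearIndependent_iff]
  intro g hg
  have e : ∀ j, ∑ i, g i * G i j = 0 := by
    intro j
    have := congrFun hg j
    simpa [Matrix.row] using this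
  intro i
  fin_cases i
  · have := e j₀; simpa [h0] using this
  · have := e j₁; simpa [h1] using this
  · have := e j₂; simpa [h2] using this

theorem indep_G9 : LinearIndependent (ZMod 3) G9.row :=
  indep_of 3 1 0 (by decide) (by decide) (by decide)

/-- four points in general position -/
def cols4 : Fin 4 → Fin 3 → ZMod 3 := ![![1, 0, 0], ![0, 1, 0], ![0, 0, 1], ![1, 1, 1]]

/-- the generator matrix of length four -/
def G4 : Matrix (Fin 3) (Fin 4) (ZMod 3) := Matrix.of fun i j => cols4 j i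

/-- coefficients for the three other columns -/
def cf4 : Fin 4 → Fin 4 → ZMod 3 := ![![0, 2, 2, 1], ![2, 0, 2, 1], ![2, 2, 0, 1], ![1, 1, 1, 0]]

theorem cf4_spec : ∀ c, (∀ i, ∑ j, cf4 c j * cols4 j i = cols4 c i) ∧ cf4 c c = 0 := by
  decide +kernel

theorem batch_G4 : AllSymbolBatch 2 G4 := by
  intro s
  have hself : ∀ c, Recovers G4 {c} (G4.col c) := fun c =>
    Submodule.subset_span ⟨c, by simp, rfl⟩
  have hother : ∀ c, Recovers G4 (univ.erase c) (G4.col c) := by
    intro c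
    obtain ⟨h1, h2⟩ := cf4_spec c
    refine recovers_of (cf4 c) ?_ (fun j hj => ?_)
    · funext i
      rw [Finset.sum_apply]
      exact h1 i
    · rw [Finset.mem_erase]
      exact ⟨fun h => hj (h ▸ h2), mem_univ _⟩
  by_cases h : s 0 = s 1
  · refine ⟨![{s 0}, univ.erase (s 0)], ?_, ?_⟩
    · intro a b hab
      fin_cases a <;> fin_cases b <;> simp_all
    · intro a
      fin_cases a
      · exact hself _
      · change Recovers G4 (univ.erase (s 0)) (G4.col (s 1))
        rw [← h]; exact hother _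
  · refine ⟨![{s 0}, {s 1}], ?_, ?_⟩
    · intro a b hab
      fin_cases a <;> fin_cases b <;> simp_all [Ne.symm h, eq_comm]
    · intro a
      fin_cases a
      · exact hself _
      · exact hself _

theorem indep_G4 : LinearIndependent (ZMod 3) G4.row :=
  indep_of 0 1 2 (by decide) (by decide) (by decide)

/-- seven copies of the identity matrix -/
def G21 : Matrix (Fin 3) (Fin 21) (ZMod 3) := Matrix.of fun i j => if (j : ℕ) % 3 = i then 1 else 0

theorem batch_G21 : AllSymbolBatch 7 G21 := by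
  intro s
  refine ⟨fun a => univ.filter (fun j => (j : ℕ) / 3 = a), ?_, ?_⟩
  · intro a b hab
    rw [Finset.disjoint_left]
    intro j h1 h2
    have e1 := (Finset.mem_filter.mp h1).2
    have e2 := (Finset.mem_filter.mp h2).2
    exact hab (Fin.ext (e1.symm.trans e2))
  · intro a
    change Recovers G21 (univ.filter (fun j => (j : ℕ) / 3 = a)) (G21.col (s a))
    generalize G21.col (s a) = v
    have hb : ∀ i : Fin 3, G21.col ⟨3 * a + i, by omega⟩ = Pi.single i 1 := by
      intro i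
      funext i'
      simp only [Matrix.col, G21, Matrix.of_apply, Matrix.transpose_apply]
      have : (3 * (a : ℕ) + i) % 3 = i := by omega
      rw [this]
      by_cases h : i' = i
      · rw [h]; simp
      · rw [Pi.single_eq_of_ne h, if_neg (fun h' => h (Fin.ext h'.symm))]
    have hv : v = ∑ i, v i • G21.col ⟨3 * a + i, by omega⟩ := by
      simp only [hb]
      funext i'
      rw [Finset.sum_apply]
      simp [Pi.single_apply]
    rw [hv]
    apply Submodule.sum_mem
    intro i _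
    apply Submodule.smul_mem
    apply Submodule.subset_span
    refine ⟨⟨3 * a + i, by omega⟩, ?_, rfl⟩
    rw [Finset.mem_coe, Finset.mem_filter]
    refine ⟨mem_univ _, ?_⟩
    change (3 * (a : ℕ) + i) / 3 = a
    omega

theorem indep_G21 : LinearIndependent (ZMod 3) G21.row :=
  indep_of 0 1 2 (by decide) (by decide) (by decide)

end Q220.AllSymbol
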